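import Pool.Agent.R545.Tg.Defs

/-!
# The cycle on nine vertices with the labels `2`, `{1, 4}`, `3` repeated three times
-/

set_option autoImplicit false

namespace Pool.Agent.R545.Tg

/-- the vertices: `(j, i)` is the vertex number `3 j + i` of the cycle -/
abbrev C := Fin 3 × Fin 3

/-- the next vertex of the cycle -/
def nxt (u : C) : C := if u.2 = 0 then (u.1, 1) else if u.2 = 1 then (u.1, 2) else (u.1 + 1, 0)

/-- the labels of the edge from `u` to the next vertex -/
def lb (u : C) (t : ℕ) : Bool :=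
  if u.2 = 0 then t == 2 else if u.2 = 1 then t == 1 || t == 4 else t == 3

/-- The cycle with nine vertices, with the labels `2`, `{1, 4}`, `3`, `2`, `{1, 4}`, `3`,
`2`, `{1, 4}`, `3` of its edges. -/
def cyc : UTemporal C where
  graph :=
    { Adj := fun u v => v = nxt u ∨ u = nxt v
      symm := ⟨fun _ _ h => Or.symm h⟩
      loopless := ⟨by decide⟩ }
  lab := Sym2.lift ⟨fun u v => {t | (v = nxt u ∧ lb u t = true) ∨ (u = nxt v ∧ lb v t = true)},
    fun u v => by
      ext t
      exact or_comm⟩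

theorem cyc_at (u v : C) (t : ℕ) :
    cyc.At u v t ↔ (v = nxt u ∧ lb u t = true) ∨ (u = nxt v ∧ lb v t = true) := by
  constructor
  · rintro ⟨-, h⟩
    exact h
  · intro h
    refine ⟨?_, h⟩
    rcases h with h | h
    · exact Or.inl h.1
    · exact Or.inr h.1

theorem lb_range (u : C) (t : ℕ) (h : lb u t = true) : t = 1 ∨ t = 2 ∨ t = 3 ∨ t = 4 := by
  unfold lb at h
  split_ifs at h with h1 h2
  · simp at h; omega
  · simp at h; omega
  · simp at h; omega

/-- the earliest arrival time (`5` if there is no temporal path, `0` for the vertex itself) -/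
def ea (u v : C) : ℕ :=
  let d := v.1 - u.1
  if u.2 = 0 then
    if d = 0 then (if v.2 = 0 then 0 else if v.2 = 1 then 2 else 4)
    else if d = 2 then (if v.2 = 0 then 5 else if v.2 = 1 then 4 else 3)
    else 5
  else if u.2 = 1 then
    if d = 0 then (if v.2 = 0 then 2 else if v.2 = 1 then 0 else 1)
    else if d = 2 then (if v.2 = 0 then 5 else if v.2 = 1 then 4 else 3)
    else (if v.2 = 0 then 3 else 5)
  else
    if d = 0 then (if v.2 = 0 then 2 else if v.2 = 1 then 1 else 0)
    else if d = 2 then (if v.2 = 0 then 5 else if v.2 = 1 then 4 else 3)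
    else (if v.2 = 0 then 3 else 5)

theorem ea_single : ∀ u v : C, ∀ t : Fin 5,
    ((v = nxt u ∧ lb u t = true) ∨ (u = nxt v ∧ lb v t = true)) → ea u v ≤ t := by
  decide +kernel

theorem ea_snoc : ∀ u v w : C, ∀ t : Fin 5, ea u v ≤ t →
    ((w = nxt v ∧ lb v t = true) ∨ (v = nxt w ∧ lb w t = true)) → ea u w ≤ t := by
  decide +kernel

theorem at_lt (u v : C) (t : ℕ)
    (h : (v = nxt u ∧ lb u t = true) ∨ (u = nxt v ∧ lb v t = true)) : t < 5 := by
  rcases h with h | h
  · have := lb_range _ _ h.2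
    omega
  · have := lb_range _ _ h.2
    omega

theorem ea_le {u v : C} {t : ℕ} (h : TPath cyc.At u v t) : ea u v ≤ t ∧ t < 5 := by
  induction h with
  | single h =>
    rw [cyc_at] at h
    have ht := at_lt _ _ _ h
    exact ⟨ea_single _ _ ⟨_, ht⟩ h, ht⟩
  | snoc _ h hs ih =>
    rw [cyc_at] at h
    have ht := at_lt _ _ _ h
    exact ⟨ea_snoc _ _ _ ⟨_, ht⟩ (ih.1.trans hs) h, ht⟩

theorem ea_pred : ∀ u v : C, u ≠ v → ea u v < 5 → ∃ z : C, (z = u ∨ ea u z < ea u v) ∧
    ((v = nxt z ∧ lb z (ea u v) = true) ∨ (z = nxt v ∧ lb v (ea u v) = true)) := by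
  decide +kernel

theorem ea_path (u : C) : ∀ n : ℕ, ∀ v : C, u ≠ v → ea u v = n → n < 5 →
    TPath cyc.At u v (ea u v) := by
  intro n
  induction n using Nat.strong_induction_on with
  | _ n ih =>
    intro v hne hn h5
    obtain ⟨z, hz, ha⟩ := ea_pred u v hne (hn ▸ h5)
    have ha' := (cyc_at z v _).mpr ha
    by_cases hzu : z = u
    · subst hzu
      exact TPath.single ha'
    · have h1 : ea u z < ea u v := hz.resolve_left hzu
      exact TPath.snoc (ih (ea u z) (by omega) z (fun h => hzu h.symm) rfl (by omega)) ha' h1.le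

/-- the reachability graph of the cycle -/
def Rc (u v : C) : Prop := u ≠ v ∧ ea u v < 5

instance : DecidableRel Rc := fun u v => inferInstanceAs (Decidable (u ≠ v ∧ ea u v < 5))

theorem reach_cyc (u v : C) : ReachArc cyc.At u v ↔ Rc u v := by
  constructor
  · rintro ⟨hne, t, h⟩
    have := ea_le h
    exact ⟨hne, by omega⟩
  · rintro ⟨hne, h⟩
    exact ⟨hne, _, ea_path u _ v hne rfl h⟩

end Pool.Agent.R545.Tg
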