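import Mathlib

/-!
# Temporal graphs with non-strict temporal paths
-/

set_option autoImplicit false

namespace Pool.Agent.R545.Tg

/-- `TPath A u v t`: there is a non-strict temporal path from `u` to `v` whose last label is `t`
(`A x y s`: the time `s` is a label of the edge from `x` to `y`). -/
inductive TPath {V : Type} (A : V → V → ℕ → Prop) : V → V → ℕ → Prop
  | single {u v : V} {t : ℕ} : A u v t → TPath A u v t
  | snoc {u v w : V} {s t : ℕ} : TPath A u v s → A v w t → s ≤ t → TPath A u w t

/-- the reachability graph: an arc from `u` to `v ≠ u` if there is a temporal path -/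
def ReachArc {V : Type} (A : V → V → ℕ → Prop) (u v : V) : Prop := u ≠ v ∧ ∃ t, TPath A u v t

/-- An undirected temporal graph: a (simple, undirected) graph and a set of labels for every
edge. -/
structure UTemporal (V : Type) where
  /-- the edges -/
  graph : SimpleGraph V
  /-- the labels of the edges -/
  lab : Sym2 V → Set ℕ

/-- the time `t` is a label of the edge `uv` -/
def UTemporal.At {V : Type} (G : UTemporal V) (u v : V) (t : ℕ) : Prop :=
  G.graph.Adj u v ∧ t ∈ G.lab s(u, v)

/-- A directed temporal graph: a set of arcs (ordered pairs) and a set of labels for every arc. -/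
structure DTemporal (W : Type) where
  /-- the arcs -/
  arcs : Set (W × W)
  /-- the labels of the arcs -/
  lab : W × W → Set ℕ

/-- the time `t` is a label of the arc `(u, v)` -/
def DTemporal.At {W : Type} (H : DTemporal W) (u v : W) (t : ℕ) : Prop :=
  (u, v) ∈ H.arcs ∧ t ∈ H.lab (u, v)

/-- every arc carries exactly one label -/
def DTemporal.Simple {W : Type} (H : DTemporal W) : Prop := ∀ a ∈ H.arcs, ∃ t, H.lab a = {t}

/-- The reachability graphs (of the non-strict temporal paths) are isomorphic. -/
def ReachEquivalent {V W : Type} (G : UTemporal V) (H : DTemporal W) : Prop :=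
  ∃ φ : V ≃ W, ∀ u v : V, ReachArc G.At u v ↔ ReachArc H.At (φ u) (φ v)

end Pool.Agent.R545.Tg
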