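import Pool.Agent.R545.Tg.Cycle

/-!
# No directed simple temporal graph has the reachability graph of the cycle
-/

set_option autoImplicit false

namespace Pool.Agent.R545.Tg

section General

variable {V : Type} {A : V → V → ℕ → Prop}

/-- without loops -/
def NL (A : V → V → ℕ → Prop) (u v : V) (t : ℕ) : Prop := u ≠ v ∧ A u v t

theorem TPath.of_NL {u v : V} {t : ℕ} (h : TPath (NL A) u v t) : TPath A u v t := by
  induction h with
  | single h => exact TPath.single h.2
  | snoc _ h hs ih => exact TPath.snoc ih h.2 hs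

theorem TPath.to_NL {u v : V} {t : ℕ} (h : TPath A u v t) :
    u = v ∨ ∃ s, s ≤ t ∧ TPath (NL A) u v s := by
  classical
  induction h with
  | @single v t h =>
    by_cases hv : u = v
    · exact Or.inl hv
    · exact Or.inr ⟨t, le_rfl, TPath.single ⟨hv, h⟩⟩
  | @snoc v w s t _ h hs ih =>
    by_cases hvw : v = w
    · subst hvw
      rcases ih with h1 | ⟨s', h1, h2⟩
      · exact Or.inl h1
      · exact Or.inr ⟨s', h1.trans hs, h2⟩
    · rcases ih with rfl | ⟨s', h1, h2⟩
      · exact Or.inr ⟨t, le_rfl, TPath.single ⟨hvw, h⟩⟩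
      · exact Or.inr ⟨t, le_rfl, TPath.snoc h2 ⟨hvw, h⟩ (h1.trans hs)⟩

/-- transport along a bijection -/
theorem TPath.map {W : Type} (φ : V ≃ W) (B : W → W → ℕ → Prop) {u v : V} {t : ℕ} :
    TPath (fun x y s => B (φ x) (φ y) s) u v t ↔ TPath B (φ u) (φ v) t := by
  constructor
  · intro h
    induction h with
    | single h => exact TPath.single h
    | snoc _ h hs ih => exact TPath.snoc ih h hs
  · intro h
    have gen : ∀ (x y : W) (s : ℕ), TPath B x y s →
        TPath (fun x y s => B (φ x) (φ y) s) (φ.symm x) (φ.symm y) s := by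
      intro x y s h
      induction h with
      | single h => exact TPath.single (by simpa using h)
      | snoc _ h hs ih => exact TPath.snoc ih (by simpa using h) hs
    simpa using gen _ _ _ h

end General

/-- the first, second, third vertex of a block -/
abbrev p0 (j : Fin 3) : C := (j, 0)
/-- the second vertex of a block -/
abbrev p1 (j : Fin 3) : C := (j, 1)
/-- the third vertex of a block -/
abbrev p2 (j : Fin 3) : C := (j, 2)

theorem sub_one_add_one : ∀ j : Fin 3, j - 1 + 1 = j := by decide
theorem add_one_sub_one : ∀ j : Fin 3, j + 1 - 1 = j := by decide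
theorem F1 : ∀ (j : Fin 3) (z : C), Rc (p0 j) z → Rc z (p1 j) → z = p2 j := by decide +kernel
theorem F2 : ∀ (j : Fin 3) (z : C), Rc (p0 j) z → Rc z (p2 j) → z = p1 j := by decide +kernel
theorem F3 : ∀ (j : Fin 3) (z : C), Rc (p2 j) z → Rc z (p1 j) → z = p0 j ∨ z = p0 (j + 1) := by
  decide +kernel
theorem F4 : ∀ (j : Fin 3) (z : C), Rc (p2 j) z → Rc z (p0 (j + 1)) → z = p1 j := by
  decide +kernel
theorem F5 : ∀ (j : Fin 3) (z : C), Rc (p1 j) z → Rc z (p2 j) → z = p0 j ∨ z = p0 (j + 1) := by
  decide +kernel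
theorem F6 : ∀ (j : Fin 3) (z : C), Rc (p1 j) z → Rc z (p0 (j + 1)) → z = p2 j := by
  decide +kernel
theorem F7 : ∀ j : Fin 3, p0 j ≠ p0 (j + 1) ∧ ¬ Rc (p0 j) (p0 (j + 1)) := by decide +kernel
theorem F8 : ∀ j : Fin 3, p1 j ≠ p1 (j + 1) ∧ ¬ Rc (p1 j) (p1 (j + 1)) ∧ p1 j ≠ p2 (j + 1) ∧
    ¬ Rc (p1 j) (p2 (j + 1)) ∧ p2 j ≠ p1 (j + 1) ∧ ¬ Rc (p2 j) (p1 (j + 1)) ∧
    p2 j ≠ p2 (j + 1) ∧ ¬ Rc (p2 j) (p2 (j + 1)) := by decide +kernel
theorem F9 : ∀ j : Fin 3, Rc (p0 j) (p1 j) ∧ Rc (p0 j) (p2 j) ∧ Rc (p1 j) (p0 (j + 1)) ∧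
    Rc (p2 j) (p0 (j + 1)) := by decide +kernel

section Main

variable {A : C → C → ℕ → Prop} (hloop : ∀ u t, ¬ A u u t)
  (huniq : ∀ u v s t, A u v s → A u v t → s = t)
  (hR : ∀ u v, u ≠ v → ((∃ t, TPath A u v t) ↔ Rc u v))

include hR

theorem rc_of {u v : C} {t : ℕ} (hne : u ≠ v) (h : TPath A u v t) : Rc u v :=
  (hR u v hne).mp ⟨t, h⟩

theorem path_of {u v : C} (h : Rc u v) : ∃ t, TPath A u v t := (hR u v h.1).mpr h

include hloop

/-- the last arc of a path -/
theorem last_arc {a b : C} {t : ℕ} (hab : a ≠ b) (h : TPath A a b t) :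
    A a b t ∨ ∃ z s, A z b t ∧ s ≤ t ∧ TPath A a z s ∧ Rc a z ∧ Rc z b := by
  have gen : ∀ (a' b' : C) (t' : ℕ), TPath A a' b' t' → a' = a → b' = b → t' = t →
      A a b t ∨ ∃ z s, A z b t ∧ s ≤ t ∧ TPath A a z s := by
    intro a' b' t' k
    clear h hab
    induction k with
    | single k =>
      intro e1 e2 e3
      subst e1 e2 e3
      exact Or.inl k
    | @snoc z w s t'' hp k hs ih =>
      intro e1 e2 e3
      subst e1 e2 e3
      exact Or.inr ⟨z, s, k, hs, hp⟩
  rcases gen _ _ _ h rfl rfl rfl with k | ⟨z, s, k, hs, hp⟩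
  · exact Or.inl k
  ·
    have hzb : z ≠ b := by
      rintro rfl
      exact hloop _ _ k
    by_cases hza : z = a
    · subst hza
      exact Or.inl k
    · exact Or.inr ⟨z, s, k, hs, hp, rc_of hR (fun e => hza e.symm) hp,
        rc_of hR hzb (TPath.single k)⟩

include huniq

/-- one block: some vertex of `{p1 j, p2 j}` reaches `p0 (j + 1)` before `τ` -/
theorem block (j : Fin 3) (τ : ℕ) (x : C)
    (hx : x = p1 (j - 1) ∨ x = p2 (j - 1)) (hxp : TPath A x (p0 j) τ) :
    ∃ y t, (y = p1 j ∨ y = p2 j) ∧ TPath A y (p0 (j + 1)) t ∧ t < τ := by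
  by_contra hcon
  push Not at hcon
  have hj : j - 1 + 1 = j := sub_one_add_one j
  obtain ⟨g1, g2, g3, g4, g5, g6, g7, g8⟩ := F8 (j - 1)
  rw [hj] at g1 g2 g3 g4 g5 g6 g7 g8
  -- arcs from `p0` are before `τ`
  have K3a : ∀ t, A (p0 j) (p1 j) t → t < τ := by
    intro t ht
    by_contra hlt
    have := TPath.snoc hxp ht (by omega)
    rcases hx with rfl | rfl
    · exact g2 (rc_of hR g1 this)
    · exact g6 (rc_of hR g5 this)
  have K3b : ∀ t, A (p0 j) (p2 j) t → t < τ := by
    intro t ht
    by_contra hlt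
    have := TPath.snoc hxp ht (by omega)
    rcases hx with rfl | rfl
    · exact g4 (rc_of hR g3 this)
    · exact g8 (rc_of hR g7 this)
  -- arcs into `p0 (j + 1)` are not before `τ`
  have K4a : ∀ t, A (p1 j) (p0 (j + 1)) t → τ ≤ t := fun t ht =>
    hcon _ _ (Or.inl rfl) (TPath.single ht)
  have K4b : ∀ t, A (p2 j) (p0 (j + 1)) t → τ ≤ t := fun t ht =>
    hcon _ _ (Or.inr rfl) (TPath.single ht)
  obtain ⟨r01, r02, r13, r23⟩ := F9 j
  have n03 : ∀ t, ¬ TPath A (p0 j) (p0 (j + 1)) t := fun t ht =>
    (F7 j).2 (rc_of hR (F7 j).1 ht)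
  have K5a : ∀ s t, A (p0 j) (p1 j) s → A (p1 j) (p0 (j + 1)) t → False := by
    intro s t hs ht
    have h1 := K3a s hs
    have h2 := K4a t ht
    exact n03 t (TPath.snoc (TPath.single hs) ht (by omega))
  have K5b : ∀ s t, A (p0 j) (p2 j) s → A (p2 j) (p0 (j + 1)) t → False := by
    intro s t hs ht
    have h1 := K3b s hs
    have h2 := K4b t ht
    exact n03 t (TPath.snoc (TPath.single hs) ht (by omega))
  by_cases hc : ∃ t0, A (p0 j) (p2 j) t0
  · -- the arc `(0, 2)` is present
    obtain ⟨t0, ht0⟩ := hc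
    have no23 : ∀ t, ¬ A (p2 j) (p0 (j + 1)) t := fun t ht => K5b _ _ ht0 ht
    -- the path from `2` to `3`
    obtain ⟨r, hr⟩ := path_of hR r23
    have hr' := last_arc hloop hR r23.1 hr
    obtain ⟨z, s, hz, -, -, hz1, hz2⟩ := hr'.resolve_left (no23 r)
    obtain rfl := F4 j z hz1 hz2
    have no01 : ∀ t, ¬ A (p0 j) (p1 j) t := fun t ht => K5a _ _ ht hz
    -- the path from `0` to `1`
    obtain ⟨t1, ht1⟩ := path_of hR r01
    obtain ⟨z', s', hz', -, -, hz1', hz2'⟩ := (last_arc hloop hR r01.1 ht1).resolve_left (no01 t1)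
    obtain rfl := F1 j z' hz1' hz2'
    have hlt : r < t1 := by
      by_contra hle
      exact n03 r (TPath.snoc ht1 hz (by omega))
    -- from `2` one reaches neither `1` nor `3` until time `r`
    have inv : ∀ a y t, TPath A a y t → a = p2 j → t ≤ r → y ≠ p1 j ∧ y ≠ p0 (j + 1) := by
      intro a y t h
      induction h with
      | single h =>
        intro ha ht
        subst ha
        refine ⟨?_, ?_⟩
        · rintro rfl
          have := huniq _ _ _ _ h hz'
          omega
        · rintro rfl
          exact no23 _ h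
      | @snoc z w s t hp h hs ih =>
        intro ha ht
        subst ha
        obtain ⟨i1, i2⟩ := ih rfl (by omega)
        refine ⟨?_, ?_⟩
        · rintro rfl
          by_cases hz2 : z = p2 j
          · subst hz2
            have := huniq _ _ _ _ h hz'
            omega
          · have hzz : Rc z (p1 j) := rc_of hR i1 (TPath.single h)
            have hzs : Rc (p2 j) z := rc_of hR (fun h => hz2 h.symm) hp
            rcases F3 j z hzs hzz with rfl | rfl
            · exact no01 _ h
            · exact i2 rfl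
        · rintro rfl
          by_cases hz2 : z = p2 j
          · subst hz2
            exact no23 _ h
          · have hzz : Rc z (p0 (j + 1)) := rc_of hR i2 (TPath.single h)
            have hzs : Rc (p2 j) z := rc_of hR (fun h => hz2 h.symm) hp
            exact i1 (F4 j z hzs hzz)
    exact (inv _ _ _ hr rfl le_rfl).2 rfl
  · -- the arc `(0, 2)` is absent
    push Not at hc
    -- the arc `(0, 1)` is present
    have h01 : ∃ t1, A (p0 j) (p1 j) t1 := by
      by_contra hno
      push Not at hno
      have inv : ∀ a y t, TPath A a y t → a = p0 j → y ≠ p1 j ∧ y ≠ p2 j := by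
        intro a y t h
        induction h with
        | single h =>
          intro ha
          subst ha
          refine ⟨?_, ?_⟩
          · rintro rfl
            exact hno _ h
          · rintro rfl
            exact hc _ h
        | @snoc z w s t hp h hs ih =>
          intro ha
          subst ha
          obtain ⟨i1, i2⟩ := ih rfl
          refine ⟨?_, ?_⟩
          · rintro rfl
            by_cases hz0 : z = p0 j
            · subst hz0
              exact hno _ h
            · have hzz : Rc z (p1 j) := rc_of hR i1 (TPath.single h)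
              have hzs : Rc (p0 j) z := rc_of hR (fun h => hz0 h.symm) hp
              exact i2 (F1 j z hzs hzz)
          · rintro rfl
            by_cases hz0 : z = p0 j
            · subst hz0
              exact hc _ h
            · have hzz : Rc z (p2 j) := rc_of hR i2 (TPath.single h)
              have hzs : Rc (p0 j) z := rc_of hR (fun h => hz0 h.symm) hp
              exact i1 (F2 j z hzs hzz)
      obtain ⟨t, ht⟩ := path_of hR r01
      exact (inv _ _ _ ht rfl).1 rfl
    obtain ⟨t1, ht1⟩ := h01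
    have no13 : ∀ t, ¬ A (p1 j) (p0 (j + 1)) t := fun t ht => K5a _ _ ht1 ht
    -- the path from `0` to `2` ends with the arc `(1, 2)`
    obtain ⟨μ, hμ⟩ := path_of hR r02
    obtain ⟨z, s, hz, -, -, hz1, hz2⟩ := (last_arc hloop hR r02.1 hμ).resolve_left (hc μ)
    obtain rfl := F2 j z hz1 hz2
    -- the path from `1` to `3` ends with the arc `(2, 3)`
    obtain ⟨r, hr⟩ := path_of hR r13
    obtain ⟨z', s', hz', -, -, hz1', hz2'⟩ := (last_arc hloop hR r13.1 hr).resolve_left (no13 r)
    obtain rfl := F6 j z' hz1' hz2'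
    have hlt : r < μ := by
      by_contra hle
      exact n03 r (TPath.snoc hμ hz' (by omega))
    have inv : ∀ a y t, TPath A a y t → a = p1 j → t ≤ r → y ≠ p2 j ∧ y ≠ p0 (j + 1) := by
      intro a y t h
      induction h with
      | single h =>
        intro ha ht
        subst ha
        refine ⟨?_, ?_⟩
        · rintro rfl
          have := huniq _ _ _ _ h hz
          omega
        · rintro rfl
          exact no13 _ h
      | @snoc z w s t hp h hs ih =>
        intro ha ht
        subst ha
        obtain ⟨i1, i2⟩ := ih rfl (by omega)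
        refine ⟨?_, ?_⟩
        · rintro rfl
          by_cases hz2 : z = p1 j
          · subst hz2
            have := huniq _ _ _ _ h hz
            omega
          · have hzz : Rc z (p2 j) := rc_of hR i1 (TPath.single h)
            have hzs : Rc (p1 j) z := rc_of hR (fun h => hz2 h.symm) hp
            rcases F5 j z hzs hzz with rfl | rfl
            · exact hc _ h
            · exact i2 rfl
        · rintro rfl
          by_cases hz2 : z = p1 j
          · subst hz2
            exact no13 _ h
          · have hzz : Rc z (p0 (j + 1)) := rc_of hR i2 (TPath.single h)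
            have hzs : Rc (p1 j) z := rc_of hR (fun h => hz2 h.symm) hp
            exact i1 (F6 j z hzs hzz)
    exact (inv _ _ _ hr rfl le_rfl).2 rfl

theorem no_simple : False := by
  -- infinite descent around the cycle
  have key : ∀ τ : ℕ, ∀ (j : Fin 3) (x : C), (x = p1 (j - 1) ∨ x = p2 (j - 1)) →
      TPath A x (p0 j) τ → False := by
    intro τ
    induction τ using Nat.strong_induction_on with
    | _ τ ih =>
      intro j x hx hp
      obtain ⟨y, t, hy, hyp, hlt⟩ := block hloop huniq hR j τ x hx hp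
      have hj : j + 1 - 1 = j := add_one_sub_one j
      exact ih t hlt (j + 1) y (by rw [hj]; exact hy) hyp
  obtain ⟨t, ht⟩ := path_of hR (F9 0).2.2.1
  exact key t (0 + 1) (p1 0) (Or.inl rfl) ht

end Main

/-- **The cycle has no reachability equivalent simple directed temporal graph.** -/
theorem cyc_no_simple (W : Type) (H : DTemporal W) (hS : H.Simple) : ¬ ReachEquivalent cyc H := by
  rintro ⟨φ, hφ⟩
  let B : C → C → ℕ → Prop := fun x y s => H.At (φ x) (φ y) s
  refine no_simple (A := NL B) ?_ ?_ ?_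
  · rintro u t ⟨h, -⟩
    exact h rfl
  · rintro u v s t ⟨-, h1⟩ ⟨-, h2⟩
    obtain ⟨c, hc⟩ := hS _ h1.1
    have h3 := h1.2
    have h4 := h2.2
    rw [hc] at h3 h4
    rw [Set.mem_singleton_iff] at h3 h4
    rw [h3, h4]
  · intro u v hne
    have h1 : ReachArc H.At (φ u) (φ v) ↔ Rc u v := by rw [← hφ, reach_cyc]
    rw [← h1]
    constructor
    · rintro ⟨t, h⟩
      exact ⟨fun h => hne (φ.injective h), t, (TPath.map φ H.At).mp h.of_NL⟩
    · rintro ⟨-, t, h⟩
      rcases ((TPath.map φ H.At).mpr h).to_NL with h2 | ⟨s, -, h2⟩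
      · exact absurd h2 hne
      · exact ⟨s, h2⟩

end Pool.Agent.R545.Tg
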