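import Pool.Agent.R545.Tg.Main

/-!
# Directed proper simple temporal graphs, and temporal paths on distinct vertices
-/

set_option autoImplicit false

namespace Pool.Agent.R545.Tg

/-- A temporal path from `u` to `v` on distinct vertices `x 0 = u, x 1, …, x k = v` with the
temporal edges `(x i, x (i + 1), t i)`, consecutive times being in the relation `R`
(`≤`: non-strict paths, `<`: strict paths). -/
def PathFromTo {V : Type} (R : ℕ → ℕ → Prop) (A : V → V → ℕ → Prop) (u v : V) : Prop :=
  ∃ (k : ℕ) (x : ℕ → V) (t : ℕ → ℕ), x 0 = u ∧ x k = v ∧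
    (∀ i ≤ k, ∀ j ≤ k, x i = x j → i = j) ∧
    (∀ i < k, A (x i) (x (i + 1)) (t i)) ∧ (∀ i, i + 1 < k → R (t i) (t (i + 1)))

/-- A temporal path with at least one vertex repeated can be shortened. -/
theorem TPath.toPath {V : Type} {A : V → V → ℕ → Prop} {u v : V} {s : ℕ} (h : TPath A u v s) :
    ∃ (k : ℕ) (x : ℕ → V) (t : ℕ → ℕ), x 0 = u ∧ x k = v ∧
      (∀ i ≤ k, ∀ j ≤ k, x i = x j → i = j) ∧
      (∀ i < k, A (x i) (x (i + 1)) (t i)) ∧ (∀ i, i + 1 < k → t i ≤ t (i + 1)) ∧
      ∀ i < k, t i ≤ s := by
  classical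
  -- truncation
  have trunc : ∀ (w : V) (s : ℕ) (k : ℕ) (x : ℕ → V) (t : ℕ → ℕ), x 0 = u → 
      (∀ i ≤ k, ∀ j ≤ k, x i = x j → i = j) →
      (∀ i < k, A (x i) (x (i + 1)) (t i)) → (∀ i, i + 1 < k → t i ≤ t (i + 1)) →
      (∀ i < k, t i ≤ s) → A (x k) w s →
      ∃ (k : ℕ) (x : ℕ → V) (t : ℕ → ℕ), x 0 = u ∧ x k = w ∧
        (∀ i ≤ k, ∀ j ≤ k, x i = x j → i = j) ∧
        (∀ i < k, A (x i) (x (i + 1)) (t i)) ∧ (∀ i, i + 1 < k → t i ≤ t (i + 1)) ∧
        ∀ i < k, t i ≤ s := by
    intro w s k x t h0 h1 h2 h3 h4 hA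
    by_cases hw : ∃ i ≤ k, x i = w
    · obtain ⟨i, hi, hiw⟩ := hw
      exact ⟨i, x, t, h0, hiw, fun a ha b hb => h1 a (by omega) b (by omega),
        fun a ha => h2 a (by omega), fun a ha => h3 a (by omega), fun a ha => h4 a (by omega)⟩
    · push Not at hw
      refine ⟨k + 1, fun i => if i ≤ k then x i else w, fun i => if i < k then t i else s,
        by simpa using h0, by simp, ?_, ?_, ?_, ?_⟩
      · intro i hi j hj hij
        by_cases h5 : i ≤ k <;> by_cases h6 : j ≤ k
        · simp only [h5, h6, if_true] at hij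
          exact h1 i h5 j h6 hij
        · simp only [h5, h6, if_true, if_false] at hij
          exact absurd hij (hw i h5)
        · simp only [h5, h6, if_true, if_false] at hij
          exact absurd hij.symm (hw j h6)
        · omega
      · intro i hi
        by_cases h5 : i < k
        · have h6 : i ≤ k := by omega
          have h7 : i + 1 ≤ k := by omega
          simp only [h5, h6, h7, if_true]
          exact h2 i h5
        · have h6 : i = k := by omega
          subst h6
          simpa using hA
      · intro i hi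
        have h5 : i < k := by omega
        by_cases h6 : i + 1 < k
        · simp only [h5, h6, if_true]
          exact h3 i h6
        · simp only [h5, h6, if_true, if_false]
          exact h4 i h5
      · intro i hi
        by_cases h5 : i < k
        · simp only [h5, if_true]
          exact h4 i h5
        · simp only [h5, if_false]
          exact le_rfl
  induction h with
  | @single v s h =>
    exact trunc v s 0 (fun _ => u) (fun _ => 0) rfl (fun i hi j hj _ => by omega)
      (fun i hi => by omega) (fun i hi => by omega) (fun i hi => by omega) h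
  | @snoc v w s s' _ h hs ih =>
    obtain ⟨k, x, t, h0, hk, h1, h2, h3, h4⟩ := ih
    exact trunc w s' k x t h0 h1 h2 h3 (fun i hi => (h4 i hi).trans hs) (by rw [hk]; exact h)

/-- the two descriptions of non-strict reachability agree -/
theorem pathFromTo_iff {V : Type} {A : V → V → ℕ → Prop} {u v : V} (huv : u ≠ v) :
    PathFromTo (· ≤ ·) A u v ↔ ∃ s, TPath A u v s := by
  constructor
  · rintro ⟨k, x, t, h0, hk, -, h2, h3⟩
    have key : ∀ m, m + 1 ≤ k → TPath A u (x (m + 1)) (t m) := by
      intro m
      induction m with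
      | zero =>
        intro hm
        have := h2 0 (by omega)
        rw [h0] at this
        exact TPath.single this
      | succ m ih =>
        intro hm
        exact TPath.snoc (ih (by omega)) (h2 (m + 1) (by omega)) (h3 m (by omega))
    obtain _ | k := k
    · exact absurd (h0.symm.trans hk) huv
    · exact ⟨t k, hk ▸ key k le_rfl⟩
  · rintro ⟨s, h⟩
    obtain ⟨k, x, t, h0, hk, h1, h2, h3, -⟩ := h.toPath
    exact ⟨k, x, t, h0, hk, h1, h2, h3⟩

/-- An undirected temporal graph: finitely many vertices, and a finite non-empty set of labels for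
every edge of a simple graph. -/
structure UTempGraph (V : Type) [Fintype V] where
  /-- the edges -/
  graph : SimpleGraph V
  /-- the labels of the edges -/
  lab : Sym2 V → Set ℕ
  /-- the set of labels of an edge is finite -/
  finite_lab : ∀ e ∈ graph.edgeSet, (lab e).Finite
  /-- the set of labels of an edge is not empty -/
  nonempty_lab : ∀ e ∈ graph.edgeSet, (lab e).Nonempty

/-- `(uv, t)` is a temporal edge -/
def UTempGraph.At {V : Type} [Fintype V] (G : UTempGraph V) (u v : V) (t : ℕ) : Prop :=
  G.graph.Adj u v ∧ t ∈ G.lab s(u, v)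

/-- A directed temporal graph: finitely many vertices, a set of ordered pairs `(u, v)` with `u ≠ v`
(the edges), and a finite non-empty set of labels for every edge. -/
structure DTempGraph (W : Type) [Fintype W] where
  /-- the edges -/
  arcs : Set (W × W)
  /-- no loops -/
  ne_of_mem : ∀ e ∈ arcs, e.1 ≠ e.2
  /-- the labels of the edges -/
  lab : W × W → Set ℕ
  /-- the set of labels of an edge is finite -/
  finite_lab : ∀ e ∈ arcs, (lab e).Finite
  /-- the set of labels of an edge is not empty -/
  nonempty_lab : ∀ e ∈ arcs, (lab e).Nonempty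

/-- `(u, v, t)` is a temporal edge -/
def DTempGraph.At {W : Type} [Fintype W] (H : DTempGraph W) (u v : W) (t : ℕ) : Prop :=
  (u, v) ∈ H.arcs ∧ t ∈ H.lab (u, v)

/-- every edge carries exactly one label -/
def DTempGraph.Simple {W : Type} [Fintype W] (H : DTempGraph W) : Prop :=
  ∀ e ∈ H.arcs, (H.lab e).ncard = 1

/-- Directed proper: for every temporal edge `(u, v, t)` and every temporal edge `(v, x, t')` with
`x ≠ v`, one has `t ≠ t'`. -/
def DTempGraph.Proper {W : Type} [Fintype W] (H : DTempGraph W) : Prop :=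
  ∀ u v x t t', H.At u v t → H.At v x t' → x ≠ v → t ≠ t'

/-- in a directed proper temporal graph, non-strict paths are strict -/
theorem DTempGraph.Proper.strict {W : Type} [Fintype W] {H : DTempGraph W} (hP : H.Proper)
    {u v : W} : PathFromTo (· < ·) H.At u v ↔ PathFromTo (· ≤ ·) H.At u v := by
  constructor
  · rintro ⟨k, x, t, h0, hk, h1, h2, h3⟩
    exact ⟨k, x, t, h0, hk, h1, h2, fun i hi => (h3 i hi).le⟩
  · rintro ⟨k, x, t, h0, hk, h1, h2, h3⟩
    refine ⟨k, x, t, h0, hk, h1, h2, fun i hi => lt_of_le_of_ne (h3 i hi) ?_⟩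
    have e1 := h2 i (by omega)
    have e2 := h2 (i + 1) hi
    exact hP _ _ _ _ _ e1 e2 (fun h => H.ne_of_mem _ e2.1 h.symm)

/-- The reachability graph: an arc from `u` to `v ≠ u` if there is a temporal path from `u` to `v`
(`R` is `≤` for non-strict paths and `<` for strict paths). -/
def RGraph {V : Type} (R : ℕ → ℕ → Prop) (A : V → V → ℕ → Prop) (u v : V) : Prop :=
  u ≠ v ∧ PathFromTo R A u v

/-- the cycle with nine vertices and the labels `2`, `{1, 4}`, `3` (three times) -/
def cycG : UTempGraph C where
  graph := cyc.graph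
  lab := cyc.lab
  finite_lab := by
    intro e he
    induction e with
    | _ u v =>
    have hs : cyc.lab s(u, v) ⊆ Set.Iio 5 := by
      intro t ht
      have h1 : cyc.At u v t := ⟨he, ht⟩
      rw [cyc_at] at h1
      exact at_lt _ _ _ h1
    exact (Set.finite_Iio 5).subset hs
  nonempty_lab := by
    intro e he
    induction e with
    | _ u v =>
    have key : ∀ u : C, ∃ t : Fin 5, lb u t = true := by decide
    have h1 : v = nxt u ∨ u = nxt v := he
    rcases h1 with h1 | h1
    · obtain ⟨t, ht⟩ := key u
      exact ⟨t, Or.inl ⟨h1, ht⟩⟩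
    · obtain ⟨t, ht⟩ := key v
      exact ⟨t, Or.inr ⟨h1, ht⟩⟩

/-- no directed simple temporal graph is (for non-strict paths) reachability equivalent to the
cycle -/
theorem cycG_no_simple (W : Type) [Fintype W] (H : DTempGraph W) (hS : H.Simple) (φ : C ≃ W) :
    ¬ ∀ u v : C, RGraph (· ≤ ·) cycG.At u v ↔ RGraph (· ≤ ·) H.At (φ u) (φ v) := by
  intro hφ
  refine cyc_no_simple W ⟨H.arcs, H.lab⟩ ?_ ⟨φ, ?_⟩
  · intro a ha
    exact Set.ncard_eq_one.mp (hS a ha)
  · intro u v
    have h1 : ReachArc cyc.At u v ↔ RGraph (· ≤ ·) cycG.At u v :=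
      and_congr_right fun hne => (pathFromTo_iff hne).symm
    have h2 : ReachArc (DTemporal.At ⟨H.arcs, H.lab⟩) (φ u) (φ v) ↔
        RGraph (· ≤ ·) H.At (φ u) (φ v) :=
      and_congr_right fun hne => (pathFromTo_iff hne).symm
    rw [h1, h2]
    exact hφ u v

end Pool.Agent.R545.Tg
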